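import Mathlib.Tactic

/-!
King and rook against king, with White to move.  Squares are pairs (file, rank) of natural numbers, a1 = (1, 1).
-/

namespace Pool.Agent.KRK

/-- A board: the squares on it, and the squares from which the Black king may walk off the board (and so win). -/
structure Board where
  on : ℕ × ℕ → Prop
  exit : ℕ × ℕ → Prop

/-- The quarter-infinite board: all pairs of positive integers, no exits. -/
def quarter : Board where
  on s := 1 ≤ s.1 ∧ 1 ≤ s.2
  exit _ := False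

/-- The board with `m` files and `n` ranks; the Black king may walk off it from the east edge (file `m`)
and from the north edge (rank `n`). -/
def finite (m n : ℕ) : Board where
  on s := 1 ≤ s.1 ∧ s.1 ≤ m ∧ 1 ≤ s.2 ∧ s.2 ≤ n
  exit s := s.1 = m ∨ s.2 = n

/-- Positions of the White king, the White rook and the Black king. -/
structure Pos where
  k : ℕ × ℕ
  r : ℕ × ℕ
  b : ℕ × ℕ

/-- The two squares are equal or a king's step apart. -/
def near (s t : ℕ × ℕ) : Prop :=
  s.1 ≤ t.1 + 1 ∧ t.1 ≤ s.1 + 1 ∧ s.2 ≤ t.2 + 1 ∧ t.2 ≤ s.2 + 1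

/-- Two different squares on one file or one rank. -/
def line (s t : ℕ × ℕ) : Prop := s ≠ t ∧ (s.1 = t.1 ∨ s.2 = t.2)

/-- `x` lies strictly between `s` and `t` on a common file or a common rank. -/
def between (s x t : ℕ × ℕ) : Prop :=
  (s.1 = x.1 ∧ x.1 = t.1 ∧ (s.2 < x.2 ∧ x.2 < t.2 ∨ t.2 < x.2 ∧ x.2 < s.2)) ∨
  (s.2 = x.2 ∧ x.2 = t.2 ∧ (s.1 < x.1 ∧ x.1 < t.1 ∨ t.1 < x.1 ∧ x.1 < s.1))

/-- The rook on `r` attacks the square `s` (only the White king, on `k`, can shield it). -/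
def attacks (k r s : ℕ × ℕ) : Prop := line r s ∧ ¬ between r k s

/-- A legal White move from position `p` to position `q`: a king move or a rook move. -/
def WMove (B : Board) (p q : Pos) : Prop :=
  q.b = p.b ∧
  ((q.r = p.r ∧ B.on q.k ∧ q.k ≠ p.k ∧ near p.k q.k ∧ q.k ≠ p.r ∧ ¬ near q.k p.b) ∨
   (q.k = p.k ∧ B.on q.r ∧ line p.r q.r ∧ q.r ≠ p.k ∧ q.r ≠ p.b ∧
      ¬ between p.r p.k q.r ∧ ¬ between p.r p.b q.r))

/-- A legal Black king move on the board, from position `q`, to the square `s`: the square is a king's step away,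
not next to the White king and not attacked by the rook.  The case `s = q.r` is the capture of the rook. -/
def BMove (B : Board) (q : Pos) (s : ℕ × ℕ) : Prop :=
  B.on s ∧ s ≠ q.b ∧ near q.b s ∧ ¬ near q.k s ∧ ¬ attacks q.k q.r s

/-- `WinsIn B n p`: from position `p` with White to move, White can force checkmate within `n` moves.  After White's
move the Black king is not on a square from which it can walk off, it is not stalemated (it has a legal move or is in
check), and every legal Black move neither captures the rook nor leaves a position from which White cannot mate within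
one move less.  (If there is no legal Black move, this is checkmate.) -/
def WinsIn (B : Board) : ℕ → Pos → Prop
  | 0, _ => False
  | n + 1, p => ∃ q, WMove B p q ∧ ¬ B.exit q.b ∧
      ((∃ s, BMove B q s) ∨ attacks q.k q.r q.b) ∧
      ∀ s, BMove B q s → s ≠ q.r ∧ WinsIn B n ⟨q.k, q.r, s⟩

/-- The starting position: WK a1, WR b2, BK c3. -/
def start : Pos := ⟨(1, 1), (2, 2), (3, 3)⟩

/-! ### Basic lemmas -/

theorem WinsIn.succ {B : Board} : ∀ {n : ℕ} {p : Pos}, WinsIn B n p → WinsIn B (n + 1) p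
  | 0, _, h => h.elim
  | _ + 1, _, ⟨q, h1, h2, h3, h4⟩ => ⟨q, h1, h2, h3, fun s hs => ⟨(h4 s hs).1, (h4 s hs).2.succ⟩⟩

theorem WinsIn.le {B : Board} {n m : ℕ} {p : Pos} (h : WinsIn B n p) (hm : n ≤ m) : WinsIn B m p := by
  induction hm with
  | refl => exact h
  | step _ ih => exact ih.succ

theorem WinsIn.mono {B B' : Board} (h1 : ∀ s, B.on s → B'.on s)
    (h2 : ∀ s, B.on s → ¬ B.exit s → ¬ B'.exit s)
    (h3 : ∀ b s, B.on b → ¬ B.exit b → near b s → B'.on s → B.on s) :
    ∀ {n : ℕ} {p : Pos}, B.on p.b → WinsIn B n p → WinsIn B' n p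
  | 0, _, _, h => h.elim
  | n + 1, p, hb, ⟨q, hq, hx, hs, ha⟩ => by
    have hqb : B.on q.b := hq.1 ▸ hb
    have key : ∀ s, BMove B' q s → BMove B q s := fun s hs' =>
      ⟨h3 _ _ hqb hx hs'.2.2.1 hs'.1, hs'.2⟩
    refine ⟨q, ⟨hq.1, ?_⟩, h2 _ hqb hx, ?_, ?_⟩
    · rcases hq.2 with h | h
      · exact Or.inl ⟨h.1, h1 _ h.2.1, h.2.2⟩
      · exact Or.inr ⟨h.1, h1 _ h.2.1, h.2.2⟩
    · rcases hs with ⟨s, hs⟩ | h
      · exact Or.inl ⟨s, h1 _ hs.1, hs.2⟩
      · exact Or.inr h
    · intro s hs'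
      have := ha s (key s hs')
      exact ⟨this.1, WinsIn.mono h1 h2 h3 (key s hs').1 this.2⟩

theorem finite_mono {m n m' n' N : ℕ} (hm : m ≤ m') (hn : n ≤ n') {p : Pos} (hb : (finite m n).on p.b)
    (h : WinsIn (finite m n) N p) : WinsIn (finite m' n') N p := by
  refine WinsIn.mono ?_ ?_ ?_ hb h
  · rintro s ⟨a, b, c, d⟩
    exact ⟨a, b.trans hm, c, d.trans hn⟩
  · rintro s ⟨a, b, c, d⟩ he he'
    simp only [finite, not_or] at he he' ⊢
    omega
  · rintro b s ⟨h1, h2, h3, h4⟩ he ⟨n1, n2, n3, n4⟩ ⟨o1, o2, o3, o4⟩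
    simp only [finite, not_or] at he ⊢
    omega

theorem quarter_mono {m n N : ℕ} {p : Pos} (hb : (finite m n).on p.b)
    (h : WinsIn (finite m n) N p) : WinsIn quarter N p := by
  refine WinsIn.mono ?_ ?_ ?_ hb h
  · rintro s ⟨a, b, c, d⟩
    exact ⟨a, c⟩
  · intro s _ _ he
    exact he
  · rintro b s ⟨h1, h2, h3, h4⟩ he ⟨n1, n2, n3, n4⟩ ⟨o1, o3⟩
    simp only [finite, not_or] at he ⊢
    omega

/-! ### Reflection in the diagonal -/

theorem near_swap {s t : ℕ × ℕ} : near s.swap t.swap ↔ near s t := by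
  simp only [near, Prod.fst_swap, Prod.snd_swap]; tauto

theorem swap_ne {s t : ℕ × ℕ} : s.swap ≠ t.swap ↔ s ≠ t :=
  not_congr Prod.swap_inj

theorem line_swap {s t : ℕ × ℕ} : line s.swap t.swap ↔ line s t := by
  simp only [line, swap_ne, Prod.fst_swap, Prod.snd_swap]; tauto

theorem between_swap {s x t : ℕ × ℕ} : between s.swap x.swap t.swap ↔ between s x t := by
  simp only [between, Prod.fst_swap, Prod.snd_swap]; tauto

theorem attacks_swap {k r s : ℕ × ℕ} : attacks k.swap r.swap s.swap ↔ attacks k r s := by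
  simp only [attacks, line_swap, between_swap]

def Pos.sw (p : Pos) : Pos := ⟨p.k.swap, p.r.swap, p.b.swap⟩

theorem on_swap {m n : ℕ} {s : ℕ × ℕ} : (finite n m).on s.swap ↔ (finite m n).on s := by
  simp only [finite, Prod.fst_swap, Prod.snd_swap]; tauto

theorem exit_swap {m n : ℕ} {s : ℕ × ℕ} : (finite n m).exit s.swap ↔ (finite m n).exit s := by
  simp only [finite, Prod.fst_swap, Prod.snd_swap]; tauto

theorem BMove_swap {m n : ℕ} {q : Pos} {s : ℕ × ℕ} :
    BMove (finite n m) q.sw s.swap ↔ BMove (finite m n) q s := by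
  simp only [BMove, Pos.sw, on_swap, swap_ne, near_swap, attacks_swap]

theorem WMove_swap {m n : ℕ} {p q : Pos} :
    WMove (finite n m) p.sw q.sw ↔ WMove (finite m n) p q := by
  simp only [WMove, Pos.sw, on_swap, swap_ne, near_swap, line_swap, between_swap, Prod.swap_inj]

theorem WinsIn.sw {m n : ℕ} : ∀ {N : ℕ} {p : Pos}, WinsIn (finite m n) N p → WinsIn (finite n m) N p.sw
  | 0, _, h => h.elim
  | N + 1, p, ⟨q, hq, hx, hs, ha⟩ => by
    refine ⟨q.sw, WMove_swap.2 hq, fun h => hx (exit_swap.1 h), ?_, ?_⟩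
    · rcases hs with ⟨s, hs⟩ | h
      · exact Or.inl ⟨s.swap, BMove_swap.2 hs⟩
      · exact Or.inr (attacks_swap.2 h)
    · intro s hs'
      rw [← Prod.swap_swap s] at hs' ⊢
      have := ha s.swap (BMove_swap.1 hs')
      exact ⟨swap_ne.2 this.1, this.2.sw⟩

/-! ### A criterion for Black to be safe -/

theorem no_win {B : Board} (S T : ℕ × ℕ → ℕ × ℕ → ℕ × ℕ → Prop)
    (hW1 : ∀ k r b k', S k r b → B.on k' → near k k' → ¬ near k' b → T k' r b)
    (hW2 : ∀ k r b r', S k r b → B.on r' → line r r' → r' ≠ b → T k r' b)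
    (hB : ∀ k r b, T k r b → B.exit b ∨ BMove B ⟨k, r, b⟩ r ∨ ∃ s, BMove B ⟨k, r, b⟩ s ∧ S k r s) :
    ∀ (N : ℕ) (p : Pos), S p.k p.r p.b → ¬ WinsIn B N p
  | 0, _, _, h => h
  | N + 1, p, hS, ⟨q, hq, hx, _, ha⟩ => by
    have hT : T q.k q.r q.b := by
      rcases hq with ⟨h0, ⟨h1, h2, h3, h4, h5, h6⟩ | ⟨h1, h2, h3, h4, h5, h6⟩⟩
      · rw [h0, h1]
        exact hW1 _ _ _ _ hS h2 h4 h6
      · rw [h0, h1]
        exact hW2 _ _ _ _ hS h2 h3 h5
    rcases hB _ _ _ hT with h | h | ⟨s, h, hs⟩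
    · exact hx h
    · exact (ha _ h).1 rfl
    · exact no_win S T hW1 hW2 hB N ⟨q.k, q.r, s⟩ hs (ha _ h).2

end Pool.Agent.KRK
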