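import Pool.Agent.KRK.Defs

/-! Bit masks as natural numbers. -/

namespace Pool.Agent.KRK

/-- Bit `i` of `a`. -/
def tb (a i : ℕ) : Bool := Nat.beq (Nat.mod (Nat.shiftRight a i) 2) 1

theorem tb_eq (a i : ℕ) : tb a i = a.testBit i := by
  have h : Nat.mod (Nat.shiftRight a i) 2 = a / 2 ^ i % 2 := by
    rw [← Nat.shiftRight_eq_div_pow]; rfl
  rw [tb, h, Nat.testBit_eq_decide_div_mod_eq, Bool.eq_iff_iff, Nat.beq_eq, decide_eq_true_iff]

/-- Every bit of `a` is a bit of `b`. -/
def sub (a b : ℕ) : Bool := Nat.beq (Nat.land a b) a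

theorem sub_tb {a b i : ℕ} (h : sub a b = true) (ha : a.testBit i = true) : b.testBit i = true := by
  have h' : a &&& b = a := Nat.eq_of_beq_eq_true h
  have : (a &&& b).testBit i = true := by rw [h', ha]
  rw [Nat.testBit_and, ha, Bool.true_and] at this
  exact this

theorem nbeq_false {a b : ℕ} : Nat.beq a b = false ↔ a ≠ b := by
  rw [← Bool.not_eq_true, Nat.beq_eq]

theorem nble_false {a b : ℕ} : Nat.ble a b = false ↔ b < a := by
  rw [← Bool.not_eq_true, Nat.ble_eq, not_le]

/-- Shifted inclusion in both directions. -/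
def sh (p g c : ℕ) : Bool := sub p (Nat.shiftRight g c) && sub (Nat.shiftRight p c) g

theorem sh_spec {p g c i j : ℕ} (h : sh p g c = true) (hij : j = c + i ∨ i = c + j)
    (hp : p.testBit i = true) : g.testBit j = true := by
  rw [sh, Bool.and_eq_true] at h
  rcases hij with e | e
  · have := sub_tb h.1 hp
    have e2 : (Nat.shiftRight g c).testBit i = g.testBit (c + i) := Nat.testBit_shiftRight ..
    rw [e2, ← e] at this
    exact this
  · have e2 : (Nat.shiftRight p c).testBit j = p.testBit (c + j) := Nat.testBit_shiftRight ..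
    rw [e] at hp
    exact sub_tb h.2 (e2.trans hp)

/-- Check `f` at `a, a+1, …, a+n-1`. -/
def allFrom (f : ℕ → Bool) : ℕ → ℕ → Bool
  | 0, _ => true
  | n + 1, a => f a && allFrom f n (Nat.succ a)

theorem allFrom_spec {f : ℕ → Bool} : ∀ {n a : ℕ}, allFrom f n a = true →
    ∀ i, a ≤ i → i < a + n → f i = true
  | 0, a, _, i, h1, h2 => by omega
  | n + 1, a, h, i, h1, h2 => by
    rw [allFrom, Bool.and_eq_true] at h
    rcases Nat.eq_or_lt_of_le h1 with e | e
    · rw [← e]; exact h.1
    · exact allFrom_spec h.2 i e (by omega)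

end Pool.Agent.KRK
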