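import Pool.Agent.KRK.WinTable

namespace Pool.Agent.KRK.Win

theorem chk_2_4 : t_2_4.all (keyB tab) = true := by decide +kernel

theorem chk_3_4 : t_3_4.all (keyB tab) = true := by decide +kernel

theorem chk_4_4 : t_4_4.all (keyB tab) = true := by decide +kernel

theorem chk_5_4 : t_5_4.all (keyB tab) = true := by decide +kernel

theorem chk_6_4 : t_6_4.all (keyB tab) = true := by decide +kernel

theorem chk_7_4 : t_7_4.all (keyB tab) = true := by decide +kernel

theorem chk_8_4 : t_8_4.all (keyB tab) = true := by decide +kernel

theorem chk_1_5 : t_1_5.all (keyB tab) = true := by decide +kernel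

theorem chk_2_5 : t_2_5.all (keyB tab) = true := by decide +kernel

theorem chk_3_5 : t_3_5.all (keyB tab) = true := by decide +kernel

theorem chk_4_5 : t_4_5.all (keyB tab) = true := by decide +kernel

theorem chk_5_5 : t_5_5.all (keyB tab) = true := by decide +kernel

theorem chk_6_5 : t_6_5.all (keyB tab) = true := by decide +kernel

end Pool.Agent.KRK.Win
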