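import Pool.Agent.KRK.WinTable

namespace Pool.Agent.KRK.Win

theorem chk_7_5 : t_7_5.all (keyB tab) = true := by decide +kernel

theorem chk_8_5 : t_8_5.all (keyB tab) = true := by decide +kernel

theorem chk_1_6 : t_1_6.all (keyB tab) = true := by decide +kernel

theorem chk_2_6 : t_2_6.all (keyB tab) = true := by decide +kernel

theorem chk_3_6 : t_3_6.all (keyB tab) = true := by decide +kernel

theorem chk_4_6 : t_4_6.all (keyB tab) = true := by decide +kernel

theorem chk_5_6 : t_5_6.all (keyB tab) = true := by decide +kernel

theorem chk_6_6 : t_6_6.all (keyB tab) = true := by decide +kernel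

theorem chk_7_6 : t_7_6.all (keyB tab) = true := by decide +kernel

theorem chk_8_6 : t_8_6.all (keyB tab) = true := by decide +kernel

theorem chk_1_7 : t_1_7.all (keyB tab) = true := by decide +kernel

theorem chk_2_7 : t_2_7.all (keyB tab) = true := by decide +kernel

theorem chk_3_7 : t_3_7.all (keyB tab) = true := by decide +kernel

theorem chk_4_7 : t_4_7.all (keyB tab) = true := by decide +kernel

theorem chk_5_7 : t_5_7.all (keyB tab) = true := by decide +kernel

theorem chk_6_7 : t_6_7.all (keyB tab) = true := by decide +kernel

end Pool.Agent.KRK.Win
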