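import Pool.Agent.KRK.WinTable

namespace Pool.Agent.KRK.Win

theorem chk_7_7 : t_7_7.all (keyB tab) = true := by decide +kernel

theorem chk_8_7 : t_8_7.all (keyB tab) = true := by decide +kernel

theorem chk_1_8 : t_1_8.all (keyB tab) = true := by decide +kernel

theorem chk_2_8 : t_2_8.all (keyB tab) = true := by decide +kernel

theorem chk_3_8 : t_3_8.all (keyB tab) = true := by decide +kernel

theorem chk_4_8 : t_4_8.all (keyB tab) = true := by decide +kernel

theorem chk_5_8 : t_5_8.all (keyB tab) = true := by decide +kernel

theorem chk_6_8 : t_6_8.all (keyB tab) = true := by decide +kernel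

theorem chk_7_8 : t_7_8.all (keyB tab) = true := by decide +kernel

theorem chk_8_8 : t_8_8.all (keyB tab) = true := by decide +kernel

theorem chk_1_9 : t_1_9.all (keyB tab) = true := by decide +kernel

theorem chk_2_9 : t_2_9.all (keyB tab) = true := by decide +kernel

theorem chk_3_9 : t_3_9.all (keyB tab) = true := by decide +kernel

theorem chk_4_9 : t_4_9.all (keyB tab) = true := by decide +kernel

theorem chk_5_9 : t_5_9.all (keyB tab) = true := by decide +kernel

theorem chk_6_9 : t_6_9.all (keyB tab) = true := by decide +kernel

theorem chk_7_9 : t_7_9.all (keyB tab) = true := by decide +kernel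

theorem chk_8_9 : t_8_9.all (keyB tab) = true := by decide +kernel

theorem chk_9_9 : t_9_9.all (keyB tab) = true := by decide +kernel

theorem chk_1_10 : t_1_10.all (keyB tab) = true := by decide +kernel

theorem chk_2_10 : t_2_10.all (keyB tab) = true := by decide +kernel

theorem chk_3_10 : t_3_10.all (keyB tab) = true := by decide +kernel

theorem chk_4_10 : t_4_10.all (keyB tab) = true := by decide +kernel

theorem chk_5_10 : t_5_10.all (keyB tab) = true := by decide +kernel

theorem chk_6_10 : t_6_10.all (keyB tab) = true := by decide +kernel

theorem chk_7_10 : t_7_10.all (keyB tab) = true := by decide +kernel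

theorem chk_8_10 : t_8_10.all (keyB tab) = true := by decide +kernel

theorem chk_2_11 : t_2_11.all (keyB tab) = true := by decide +kernel

theorem chk_3_11 : t_3_11.all (keyB tab) = true := by decide +kernel

theorem chk_4_11 : t_4_11.all (keyB tab) = true := by decide +kernel

theorem chk_5_11 : t_5_11.all (keyB tab) = true := by decide +kernel

theorem chk_6_11 : t_6_11.all (keyB tab) = true := by decide +kernel

end Pool.Agent.KRK.Win
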