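import Pool.Agent.KRK.WinCheck1
import Pool.Agent.KRK.WinCheck2
import Pool.Agent.KRK.WinCheck3
import Pool.Agent.KRK.WinCheck4

/-! White mates within 39 moves on the 9 x 11 board. -/

namespace Pool.Agent.KRK.Win

theorem tab_all : tab.all (keyB tab) = true := by
  have h : ∀ f : ℕ → ℕ → Bool, t_1_1.all f = true → t_2_1.all f = true → t_3_1.all f = true → t_4_1.all f = true → t_5_1.all f = true → t_6_1.all f = true → t_7_1.all f = true → t_1_2.all f = true → t_2_2.all f = true → t_3_2.all f = true → t_4_2.all f = true → t_5_2.all f = true → t_6_2.all f = true → t_7_2.all f = true → t_8_2.all f = true → t_1_3.all f = true → t_2_3.all f = true → t_3_3.all f = true → t_4_3.all f = true → t_5_3.all f = true → t_6_3.all f = true → t_7_3.all f = true → t_8_3.all f = true → t_1_4.all f = true → t_2_4.all f = true → t_3_4.all f = true → t_4_4.all f = true → t_5_4.all f = true → t_6_4.all f = true → t_7_4.all f = true → t_8_4.all f = true → t_1_5.all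 f = true → t_2_5.all f = true → t_3_5.all f = true → t_4_5.all f = true → t_5_5.all f = true → t_6_5.all f = true → t_7_5.all f = true → t_8_5.all f = true → t_1_6.all f = true → t_2_6.all f = true → t_3_6.all f = true → t_4_6.all f = true → t_5_6.all f = true → t_6_6.all f = true → t_7_6.all f = true → t_8_6.all f = true → t_1_7.all f = true → t_2_7.all f = true → t_3_7.all f = true → t_4_7.all f = true → t_5_7.all f = true → t_6_7.all f = true → t_7_7.all f = true → t_8_7.all f = true → t_1_8.all f = true → t_2_8.all f = true → t_3_8.all f = true → t_4_8.all f = true → t_5_8.all f = true → t_6_8.all f = true → t_7_8.all f = true → t_8_8.all f = true → t_1_9.all f = true → t_2_9.all f = true → t_3_9.all f = true → t_4_9.all f = true → t_5_9.all f = true → t_6_9.all f = true → t_7_9.all f = true → t_8_9.all f = true → t_9_9.all f = true → t_1_10.all f = true → t_2_10.all f = true → t_3_10.all f = true → t_4_10.all f = true → t_5_10.all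 f = true → t_6_10.all f = true → t_7_10.all f = true → t_8_10.all f = true → t_2_11.all f = true → t_3_11.all f = true → t_4_11.all f = true → t_5_11.all f = true → t_6_11.all f = true → tab.all f = true := by
    intro f h17 h18 h19 h20 h21 h22 h23 h33 h34 h35 h36 h37 h38 h39 h40 h49 h50 h51 h52 h53 h54 h55 h56 h65 h66 h67 h68 h69 h70 h71 h72 h81 h82 h83 h84 h85 h86 h87 h88 h97 h98 h99 h100 h101 h102 h103 h104 h113 h114 h115 h116 h117 h118 h119 h120 h129 h130 h131 h132 h133 h134 h135 h136 h145 h146 h147 h148 h149 h150 h151 h152 h153 h161 h162 h163 h164 h165 h166 h167 h168 h178 h179 h180 h181 h182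
    simp only [tab, Tr.all, h17, h18, h19, h20, h21, h22, h23, h33, h34, h35, h36, h37, h38, h39, h40, h49, h50, h51, h52, h53, h54, h55, h56, h65, h66, h67, h68, h69, h70, h71, h72, h81, h82, h83, h84, h85, h86, h87, h88, h97, h98, h99, h100, h101, h102, h103, h104, h113, h114, h115, h116, h117, h118, h119, h120, h129, h130, h131, h132, h133, h134, h135, h136, h145, h146, h147, h148, h149, h150, h151, h152, h153, h161, h162, h163, h164, h165, h166, h167, h168, h178, h179, h180, h181, h182, Bool.and_self]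
  exact h _ chk_1_1 chk_2_1 chk_3_1 chk_4_1 chk_5_1 chk_6_1 chk_7_1 chk_1_2 chk_2_2 chk_3_2 chk_4_2 chk_5_2 chk_6_2 chk_7_2 chk_8_2 chk_1_3 chk_2_3 chk_3_3 chk_4_3 chk_5_3 chk_6_3 chk_7_3 chk_8_3 chk_1_4 chk_2_4 chk_3_4 chk_4_4 chk_5_4 chk_6_4 chk_7_4 chk_8_4 chk_1_5 chk_2_5 chk_3_5 chk_4_5 chk_5_5 chk_6_5 chk_7_5 chk_8_5 chk_1_6 chk_2_6 chk_3_6 chk_4_6 chk_5_6 chk_6_6 chk_7_6 chk_8_6 chk_1_7 chk_2_7 chk_3_7 chk_4_7 chk_5_7 chk_6_7 chk_7_7 chk_8_7 chk_1_8 chk_2_8 chk_3_8 chk_4_8 chk_5_8 chk_6_8 chk_7_8 chk_8_8 chk_1_9 chk_2_9 chk_3_9 chk_4_9 chk_5_9 chk_6_9 chk_7_9 chk_8_9 chk_9_9 chk_1_10 chk_2_10 chk_3_10 chk_4_10 chk_5_10 chk_6_10 chk_7_10 chk_8_10 chk_2_11 chk_3_11 chk_4_11 chk_5_11 chk_6_11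

theorem onB_iff {s : ℕ × ℕ} : onB s.1 s.2 = true ↔ (finite 9 11).on s := by
  simp only [onB, finite, Bool.and_eq_true, Nat.ble_eq, and_assoc]

theorem nearB_iff {a b : ℕ × ℕ} : nearB a.1 a.2 b.1 b.2 = true ↔ near a b := by
  simp only [nearB, near, Bool.and_eq_true, Nat.ble_eq, Nat.succ_eq_add_one, and_assoc]

theorem eqB_iff {a b : ℕ × ℕ} : eqB a.1 a.2 b.1 b.2 = true ↔ a = b := by
  simp only [eqB, Bool.and_eq_true, Nat.beq_eq, Prod.ext_iff]

theorem lineB_iff {a b : ℕ × ℕ} : lineB a.1 a.2 b.1 b.2 = true ↔ line a b := by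
  simp only [lineB, line, Bool.and_eq_true, Bool.or_eq_true, Nat.beq_eq, Bool.not_eq_true', ← Bool.not_eq_true,
    eqB_iff, ne_eq]

theorem btwB_iff {a b c : ℕ × ℕ} : btwB a.1 a.2 b.1 b.2 c.1 c.2 = true ↔ between a b c := by
  simp only [btwB, between, ltB, Bool.and_eq_true, Bool.or_eq_true, Nat.beq_eq, Nat.ble_eq,
    Nat.succ_le_iff, and_assoc]

theorem attB_iff {k r s : ℕ × ℕ} : attB k.1 k.2 r.1 r.2 s.1 s.2 = true ↔ attacks k r s := by
  simp only [attB, attacks, Bool.and_eq_true, Bool.not_eq_true', ← Bool.not_eq_true, lineB_iff, btwB_iff]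

theorem legB_iff {k r s : ℕ × ℕ} : legB k.1 k.2 r.1 r.2 s.1 s.2 = true ↔
    (finite 9 11).on s ∧ ¬ near k s ∧ ¬ attacks k r s := by
  simp only [legB, Bool.and_eq_true, Bool.not_eq_true', ← Bool.not_eq_true, onB_iff, nearB_iff, attB_iff,
    and_assoc]

def tg (k r : ℕ × ℕ) : ℕ := tab.get (key k.1 k.2 r.1 r.2) (key k.1 k.2 r.1 r.2)

def rank (k r b : ℕ × ℕ) : ℕ := Nat.mod (Nat.shiftRight (tg k r) (12 * (b.1 + 10 * b.2))) 64

theorem ent_ok {k r b : ℕ × ℕ} (hk : (finite 9 11).on k) (hr : (finite 9 11).on r)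
    (hb : (finite 9 11).on b) (h : 1 ≤ rank k r b) :
    ∃ e, Nat.mod e 64 = rank k r b ∧ entB tab k.1 k.2 r.1 r.2 b.1 b.2 e = true := by
  obtain ⟨k1, k2, k3, k4⟩ := hk
  obtain ⟨r1, r2, r3, r4⟩ := hr
  obtain ⟨b1, b2, b3, b4⟩ := hb
  have hv : tg k r ≠ 0 := by
    intro h0
    rw [rank, h0] at h
    have : Nat.mod (Nat.shiftRight 0 (12 * (b.1 + 10 * b.2))) 64 = 0 := by
      have e : Nat.shiftRight 0 (12 * (b.1 + 10 * b.2)) = 0 := Nat.zero_shiftRight _
      rw [e]
    omega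
  have h1 : keyB tab (key k.1 k.2 r.1 r.2) (tg k r) = true := Tr.get_all tab_all hv
  have e1 : Nat.mod (key k.1 k.2 r.1 r.2) 16 = k.1 := by
    change key k.1 k.2 r.1 r.2 % 16 = k.1
    simp only [key]; omega
  have e2 : Nat.mod (Nat.div (key k.1 k.2 r.1 r.2) 16) 16 = k.2 := by
    change key k.1 k.2 r.1 r.2 / 16 % 16 = k.2
    simp only [key]; omega
  have e3 : Nat.mod (Nat.div (key k.1 k.2 r.1 r.2) 256) 16 = r.1 := by
    change key k.1 k.2 r.1 r.2 / 256 % 16 = r.1
    simp only [key]; omega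
  have e4 : Nat.div (key k.1 k.2 r.1 r.2) 4096 = r.2 := by
    change key k.1 k.2 r.1 r.2 / 4096 = r.2
    simp only [key]; omega
  rw [keyB, e1, e2, e3, e4] at h1
  have h2 := allFrom_spec h1 (b.1 + 10 * b.2) (by omega) (by omega)
  have e5 : Nat.mod (b.1 + 10 * b.2) 10 = b.1 := by
    change (b.1 + 10 * b.2) % 10 = b.1
    omega
  have e6 : Nat.div (b.1 + 10 * b.2) 10 = b.2 := by
    change (b.1 + 10 * b.2) / 10 = b.2
    omega
  rw [slotB, e5, e6, Bool.or_eq_true, Nat.beq_eq] at h2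
  have e7 : Nat.mod (Nat.mod (Nat.shiftRight (tg k r) (12 * (b.1 + 10 * b.2))) 4096) 64 = rank k r b := by
    change (Nat.shiftRight (tg k r) (12 * (b.1 + 10 * b.2))) % 4096 % 64 =
      (Nat.shiftRight (tg k r) (12 * (b.1 + 10 * b.2))) % 64
    omega
  refine ⟨_, e7, ?_⟩
  rcases h2 with h2 | h2
  · omega
  · exact h2

theorem step_ok {k r s : ℕ × ℕ} {rk : ℕ}
    (h : stepB k.1 k.2 r.1 r.2 rk (tg k r) s.1 s.2 = true) (h1 : (finite 9 11).on s) (h2 : ¬ near k s)
    (h3 : ¬ attacks k r s) : s ≠ r ∧ 1 ≤ rank k r s ∧ rank k r s < rk := by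
  rw [stepB, legB_iff.2 ⟨h1, h2, h3⟩] at h
  simp only [Bool.not_true, Bool.false_or, Bool.and_eq_true, Bool.not_eq_true', ← Bool.not_eq_true,
    eqB_iff, Nat.ble_eq, ltB, Nat.succ_le_iff] at h
  exact h

theorem black_ok {N : ℕ} {k r b : ℕ × ℕ} {rk : ℕ}
    (h : blackB tab k.1 k.2 r.1 r.2 b.1 b.2 rk = true) (hrk : rk ≤ N + 1)
    (ih : ∀ s, (finite 9 11).on s → 1 ≤ rank k r s → rank k r s ≤ N →
      WinsIn (finite 9 11) N ⟨k, r, s⟩) :
    ¬ (finite 9 11).exit b ∧
      ((∃ s, BMove (finite 9 11) ⟨k, r, b⟩ s) ∨ attacks k r b) ∧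
      ∀ s, BMove (finite 9 11) ⟨k, r, b⟩ s → s ≠ r ∧ WinsIn (finite 9 11) N ⟨k, r, s⟩ := by
  simp only [blackB, Bool.and_eq_true, Nat.ble_eq, Bool.or_eq_true] at h
  obtain ⟨⟨⟨⟨⟨b1, b2⟩, b3⟩, b4⟩, ⟨⟨⟨⟨⟨⟨⟨s1, s2⟩, s3⟩, s4⟩, s5⟩, s6⟩, s7⟩, s8⟩⟩, hl⟩ := h
  refine ⟨?_, ?_, ?_⟩
  · rintro (h | h) <;> omega
  · rw [attB_iff] at hl
    have key : ∀ s : ℕ × ℕ, s ≠ b → near b s → legB k.1 k.2 r.1 r.2 s.1 s.2 = true →
        (∃ s, BMove (finite 9 11) ⟨k, r, b⟩ s) := by
      intro s h1 h2 h3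
      obtain ⟨a1, a2, a3⟩ := legB_iff.1 h3
      exact ⟨s, a1, h1, h2, a2, a3⟩
    rcases hl with hl | (((((((hl | hl) | hl) | hl) | hl) | hl) | hl) | hl)
    · exact Or.inr hl
    · exact Or.inl (key (b.1 - 1, b.2 - 1) (by intro e; have := congrArg Prod.fst e; simp at this; omega)
        (by simp only [near]; omega) hl)
    · exact Or.inl (key (b.1 - 1, b.2) (by intro e; have := congrArg Prod.fst e; simp at this; omega)
        (by simp only [near]; omega) hl)
    · exact Or.inl (key (b.1 - 1, b.2 + 1) (by intro e; have := congrArg Prod.fst e; simp at this; omega)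
        (by simp only [near]; omega) hl)
    · exact Or.inl (key (b.1, b.2 - 1) (by intro e; have := congrArg Prod.snd e; simp at this; omega)
        (by simp only [near]; omega) hl)
    · exact Or.inl (key (b.1, b.2 + 1) (by intro e; have := congrArg Prod.snd e; simp at this)
        (by simp only [near]; omega) hl)
    · exact Or.inl (key (b.1 + 1, b.2 - 1) (by intro e; have := congrArg Prod.fst e; simp at this)
        (by simp only [near]; omega) hl)
    · exact Or.inl (key (b.1 + 1, b.2) (by intro e; have := congrArg Prod.fst e; simp at this)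
        (by simp only [near]; omega) hl)
    · exact Or.inl (key (b.1 + 1, b.2 + 1) (by intro e; have := congrArg Prod.fst e; simp at this)
        (by simp only [near]; omega) hl)
  · rintro s ⟨o, hne, ⟨n1, n2, n3, n4⟩, hnk, hat⟩
    simp only at hne n1 n2 n3 n4 hnk hat
    have hs : stepB k.1 k.2 r.1 r.2 rk (tg k r) s.1 s.2 = true := by
      have e1 : s.1 = b.1 - 1 ∨ s.1 = b.1 ∨ s.1 = b.1 + 1 := by omega
      have e2 : s.2 = b.2 - 1 ∨ s.2 = b.2 ∨ s.2 = b.2 + 1 := by omega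
      rcases e1 with e1 | e1 | e1 <;> rcases e2 with e2 | e2 | e2 <;> rw [e1, e2]
      · exact s1
      · exact s2
      · exact s3
      · exact s4
      · exact absurd (Prod.ext e1 e2) hne
      · exact s5
      · exact s6
      · exact s7
      · exact s8
    obtain ⟨a1, a2, a3⟩ := step_ok hs o hnk hat
    exact ⟨a1, ih s o a2 (by omega)⟩

theorem wins : ∀ (N : ℕ) (k r b : ℕ × ℕ), (finite 9 11).on k → (finite 9 11).on r → (finite 9 11).on b →
    1 ≤ rank k r b → rank k r b ≤ N → WinsIn (finite 9 11) N ⟨k, r, b⟩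
  | 0, k, r, b, _, _, _, h1, h2 => by omega
  | N + 1, k, r, b, hk, hr, hb, h1, h2 => by
    obtain ⟨e, he, h⟩ := ent_ok hk hr hb h1
    unfold entB at h
    simp only at h
    rw [he] at h
    cases c1 : ltB (Nat.div e 64) 16 with
    | true =>
      rw [c1, cond_true, Bool.and_eq_true] at h
      obtain ⟨hm, hbl⟩ := h
      generalize hq : ((k.1 + Nat.mod (Nat.div e 64) 4 - 1, k.2 + Nat.div (Nat.div e 64) 4 - 1) : ℕ × ℕ) = q at *
      have q1 : k.1 + Nat.mod (Nat.div e 64) 4 - 1 = q.1 := by rw [← hq]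
      have q2 : k.2 + Nat.div (Nat.div e 64) 4 - 1 = q.2 := by rw [← hq]
      rw [q1, q2] at hm hbl
      simp only [kmB, Bool.and_eq_true, Bool.not_eq_true', ← Bool.not_eq_true, eqB_iff, onB_iff, nearB_iff] at hm
      obtain ⟨⟨⟨⟨m1, m2⟩, m3⟩, m4⟩, m5⟩ := hm
      exact ⟨⟨q, r, b⟩, ⟨rfl, Or.inl ⟨rfl, m1, m2, m3, m4, m5⟩⟩,
        black_ok hbl h2 (fun s hs a1 a2 => wins N q r s m1 hr hs a1 a2)⟩
    | false =>
      rw [c1, cond_false] at h
      have key : ∀ q : ℕ × ℕ, rmB k.1 k.2 r.1 r.2 b.1 b.2 q.1 q.2 = true →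
          blackB tab k.1 k.2 q.1 q.2 b.1 b.2 (rank k r b) = true →
          WinsIn (finite 9 11) (N + 1) ⟨k, r, b⟩ := by
        intro q hm hbl
        simp only [rmB, Bool.and_eq_true, Bool.not_eq_true', ← Bool.not_eq_true, eqB_iff, onB_iff, lineB_iff,
          btwB_iff] at hm
        obtain ⟨⟨⟨⟨⟨m1, m2⟩, m3⟩, m4⟩, m5⟩, m6⟩ := hm
        exact ⟨⟨k, q, b⟩, ⟨rfl, Or.inr ⟨rfl, m1, m2, m3, m4, m5, m6⟩⟩,
          black_ok hbl h2 (fun s hs a1 a2 => wins N k q s hk m1 hs a1 a2)⟩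
      cases c2 : ltB (Nat.div e 64) 32 with
      | true =>
        rw [c2, cond_true, Bool.and_eq_true] at h
        exact key (Nat.div e 64 - 16, r.2) h.1 h.2
      | false =>
        rw [c2, cond_false, Bool.and_eq_true] at h
        exact key (r.1, Nat.div e 64 - 32) h.1 h.2

theorem winsIn : WinsIn (finite 9 11) 39 start := by
  have h : rank (1, 1) (2, 2) (3, 3) = 39 := by decide +kernel
  refine wins 39 (1, 1) (2, 2) (3, 3) ?_ ?_ ?_ (by rw [h]; decide) (by rw [h])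
  · exact ⟨by decide, by decide, by decide, by decide⟩
  · exact ⟨by decide, by decide, by decide, by decide⟩
  · exact ⟨by decide, by decide, by decide, by decide⟩

end Pool.Agent.KRK.Win
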