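import Pool.Agent.KRK.WinTable

namespace Pool.Agent.KRK.Win

theorem chk_1_1 : t_1_1.all (keyB tab) = true := by decide +kernel

theorem chk_2_1 : t_2_1.all (keyB tab) = true := by decide +kernel

theorem chk_3_1 : t_3_1.all (keyB tab) = true := by decide +kernel

theorem chk_4_1 : t_4_1.all (keyB tab) = true := by decide +kernel

theorem chk_5_1 : t_5_1.all (keyB tab) = true := by decide +kernel

theorem chk_6_1 : t_6_1.all (keyB tab) = true := by decide +kernel

theorem chk_7_1 : t_7_1.all (keyB tab) = true := by decide +kernel

theorem chk_1_2 : t_1_2.all (keyB tab) = true := by decide +kernel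

theorem chk_2_2 : t_2_2.all (keyB tab) = true := by decide +kernel

theorem chk_3_2 : t_3_2.all (keyB tab) = true := by decide +kernel

theorem chk_4_2 : t_4_2.all (keyB tab) = true := by decide +kernel

theorem chk_5_2 : t_5_2.all (keyB tab) = true := by decide +kernel

theorem chk_6_2 : t_6_2.all (keyB tab) = true := by decide +kernel

theorem chk_7_2 : t_7_2.all (keyB tab) = true := by decide +kernel

theorem chk_8_2 : t_8_2.all (keyB tab) = true := by decide +kernel

theorem chk_1_3 : t_1_3.all (keyB tab) = true := by decide +kernel

theorem chk_2_3 : t_2_3.all (keyB tab) = true := by decide +kernel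

theorem chk_3_3 : t_3_3.all (keyB tab) = true := by decide +kernel

theorem chk_4_3 : t_4_3.all (keyB tab) = true := by decide +kernel

theorem chk_5_3 : t_5_3.all (keyB tab) = true := by decide +kernel

theorem chk_6_3 : t_6_3.all (keyB tab) = true := by decide +kernel

theorem chk_7_3 : t_7_3.all (keyB tab) = true := by decide +kernel

theorem chk_8_3 : t_8_3.all (keyB tab) = true := by decide +kernel

theorem chk_1_4 : t_1_4.all (keyB tab) = true := by decide +kernel

end Pool.Agent.KRK.Win
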