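import Pool.Agent.KRK.Masks

/-! Tables for White's winning strategy on the 9 x 11 board: a search tree and the check of one entry. -/

namespace Pool.Agent.KRK.Win

/-- Search trees with natural numbers as keys and values; absent keys have value `0`. -/
inductive Tr where
  | nil : Tr
  | leaf : ℕ → ℕ → Tr
  | node : Tr → Tr → Tr

def Tr.get : Tr → ℕ → ℕ → ℕ
  | .nil, _, _ => 0
  | .leaf k v, key, _ => bif Nat.beq k key then v else 0
  | .node l r, key, bits =>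
    bif Nat.beq (Nat.mod bits 2) 0 then l.get key (Nat.div bits 2) else r.get key (Nat.div bits 2)

def Tr.all (f : ℕ → ℕ → Bool) : Tr → Bool
  | .nil => true
  | .leaf k v => f k v
  | .node l r => l.all f && r.all f

theorem Tr.get_all {f : ℕ → ℕ → Bool} : ∀ {t : Tr} {key bits : ℕ}, t.all f = true → t.get key bits ≠ 0 →
    f key (t.get key bits) = true
  | .nil, _, _, _, h => absurd rfl h
  | .leaf k v, key, _, ha, h => by
    simp only [Tr.get] at h ⊢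
    cases hk : Nat.beq k key with
    | false => rw [hk] at h; exact absurd rfl h
    | true =>
      have : k = key := Nat.eq_of_beq_eq_true hk
      rw [cond_true, ← this]
      exact ha
  | .node l r, key, bits, ha, h => by
    simp only [Tr.all, Bool.and_eq_true] at ha
    simp only [Tr.get] at h ⊢
    cases hk : Nat.beq (Nat.mod bits 2) 0 with
    | false => rw [hk, cond_false] at h; rw [cond_false]; exact Tr.get_all ha.2 h
    | true => rw [hk, cond_true] at h; rw [cond_true]; exact Tr.get_all ha.1 h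

def nearB (a b c d : ℕ) : Bool :=
  Nat.ble a (Nat.succ c) && Nat.ble c (Nat.succ a) && Nat.ble b (Nat.succ d) && Nat.ble d (Nat.succ b)

def eqB (a b c d : ℕ) : Bool := Nat.beq a c && Nat.beq b d

def lineB (a b c d : ℕ) : Bool := !(eqB a b c d) && (Nat.beq a c || Nat.beq b d)

def ltB (a b : ℕ) : Bool := Nat.ble (Nat.succ a) b

/-- `x` between `s` and `t` -/
def btwB (s1 s2 x1 x2 t1 t2 : ℕ) : Bool :=
  (Nat.beq s1 x1 && Nat.beq x1 t1 && (ltB s2 x2 && ltB x2 t2 || ltB t2 x2 && ltB x2 s2)) ||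
  (Nat.beq s2 x2 && Nat.beq x2 t2 && (ltB s1 x1 && ltB x1 t1 || ltB t1 x1 && ltB x1 s1))

def attB (k1 k2 r1 r2 s1 s2 : ℕ) : Bool := lineB r1 r2 s1 s2 && !(btwB r1 r2 k1 k2 s1 s2)

def onB (a b : ℕ) : Bool := Nat.ble 1 a && Nat.ble a 9 && Nat.ble 1 b && Nat.ble b 11

/-- a Black king's step to `s` (already known to be near and different) is legal -/
def legB (k1 k2 r1 r2 s1 s2 : ℕ) : Bool :=
  onB s1 s2 && !(nearB k1 k2 s1 s2) && !(attB k1 k2 r1 r2 s1 s2)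

/-- if the step to `s` is legal, then it is not a capture, and the table `w` holds a rank below `rk` at `s` -/
def stepB (k1 k2 r1 r2 rk w s1 s2 : ℕ) : Bool :=
  !(legB k1 k2 r1 r2 s1 s2) ||
    (!(eqB s1 s2 r1 r2) &&
      (Nat.ble 1 (Nat.mod (Nat.shiftRight w (12 * (s1 + 10 * s2))) 64) &&
        ltB (Nat.mod (Nat.shiftRight w (12 * (s1 + 10 * s2))) 64) rk))

def key (k1 k2 r1 r2 : ℕ) : ℕ := k1 + 16 * k2 + 256 * r1 + 4096 * r2

/-- Black to move: not on an exit, not stalemated, and every legal move is answered by the table. -/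
def blackB (t : Tr) (k1 k2 r1 r2 b1 b2 rk : ℕ) : Bool :=
  Nat.ble 1 b1 && Nat.ble b1 8 && Nat.ble 1 b2 && Nat.ble b2 10 &&
  (fun w => stepB k1 k2 r1 r2 rk w (b1 - 1) (b2 - 1) && stepB k1 k2 r1 r2 rk w (b1 - 1) b2 &&
    stepB k1 k2 r1 r2 rk w (b1 - 1) (b2 + 1) && stepB k1 k2 r1 r2 rk w b1 (b2 - 1) &&
    stepB k1 k2 r1 r2 rk w b1 (b2 + 1) && stepB k1 k2 r1 r2 rk w (b1 + 1) (b2 - 1) &&
    stepB k1 k2 r1 r2 rk w (b1 + 1) b2 && stepB k1 k2 r1 r2 rk w (b1 + 1) (b2 + 1))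
    (t.get (key k1 k2 r1 r2) (key k1 k2 r1 r2)) &&
  (attB k1 k2 r1 r2 b1 b2 ||
    (legB k1 k2 r1 r2 (b1 - 1) (b2 - 1) || legB k1 k2 r1 r2 (b1 - 1) b2 ||
    legB k1 k2 r1 r2 (b1 - 1) (b2 + 1) || legB k1 k2 r1 r2 b1 (b2 - 1) ||
    legB k1 k2 r1 r2 b1 (b2 + 1) || legB k1 k2 r1 r2 (b1 + 1) (b2 - 1) ||
    legB k1 k2 r1 r2 (b1 + 1) b2 || legB k1 k2 r1 r2 (b1 + 1) (b2 + 1)))

def kmB (k1 k2 r1 r2 b1 b2 q1 q2 : ℕ) : Bool :=
  onB q1 q2 && !(eqB q1 q2 k1 k2) && nearB k1 k2 q1 q2 && !(eqB q1 q2 r1 r2) && !(nearB q1 q2 b1 b2)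

def rmB (k1 k2 r1 r2 b1 b2 q1 q2 : ℕ) : Bool :=
  onB q1 q2 && lineB r1 r2 q1 q2 && !(eqB q1 q2 k1 k2) && !(eqB q1 q2 b1 b2) &&
    !(btwB r1 r2 k1 k2 q1 q2) && !(btwB r1 r2 b1 b2 q1 q2)

/-- Check of one table entry: `e = rank + 64 * move`. -/
def entB (t : Tr) (k1 k2 r1 r2 b1 b2 e : ℕ) : Bool :=
  (fun rk mv => bif ltB mv 16 then
      (fun q1 q2 => kmB k1 k2 r1 r2 b1 b2 q1 q2 && blackB t q1 q2 r1 r2 b1 b2 rk)
        (k1 + Nat.mod mv 4 - 1) (k2 + Nat.div mv 4 - 1)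
    else bif ltB mv 32 then
      (fun q1 => rmB k1 k2 r1 r2 b1 b2 q1 r2 && blackB t k1 k2 q1 r2 b1 b2 rk) (mv - 16)
    else
      (fun q2 => rmB k1 k2 r1 r2 b1 b2 r1 q2 && blackB t k1 k2 r1 q2 b1 b2 rk) (mv - 32))
  (Nat.mod e 64) (Nat.div e 64)

def slotB (t : Tr) (k1 k2 r1 r2 v s : ℕ) : Bool :=
  (fun e => Nat.beq (Nat.mod e 64) 0 || entB t k1 k2 r1 r2 (Nat.mod s 10) (Nat.div s 10) e)
    (Nat.mod (Nat.shiftRight v (12 * s)) 4096)

def keyB (t : Tr) (ky v : ℕ) : Bool :=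
  (fun k1 k2 r1 r2 => allFrom (slotB t k1 k2 r1 r2 v) 120 0)
    (Nat.mod ky 16) (Nat.mod (Nat.div ky 16) 16) (Nat.mod (Nat.div ky 256) 16) (Nat.div ky 4096)

end Pool.Agent.KRK.Win
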